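import Pool.Agent.H70.PW.Targets

/-!
# PW, module LDC: closure properties of the functions of low degree
-/

set_option autoImplicit false

namespace Pool.Agent.H12.PW.LDC

open Finset Pool.Agent.H6.NB Pool.Agent.H70.OQ Pool.Agent.H70.PW

section

variable {X : Type} [Fintype X]

theorem ic_true {p : Prop} (h : p) : ic p = 1 := by
  unfold ic
  exact if_pos h

theorem ic_false {p : Prop} (h : ¬ p) : ic p = 0 := by
  unfold ic
  exact if_neg h

theorem const (D : ℕ) (r : ℝ) : Lo (X := X) D fun _ => r := by
  classical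
  refine ⟨fun U => if U = ∅ then r else 0, ?_, ?_⟩
  · intro U hU
    by_cases h : U = ∅
    · rw [h, card_empty]
      exact Nat.zero_le _
    · exact absurd (if_neg h) hU
  · intro b
    rw [Finset.sum_eq_single (∅ : Finset X)]
    · change r = (if (∅ : Finset X) = ∅ then r else 0) * _
      rw [if_pos rfl, ic_true (by intro x hx; exact absurd hx (notMem_empty x)), mul_one]
    · intro U _ hU
      change (if U = ∅ then r else 0) * _ = 0
      rw [if_neg hU, zero_mul]
    · intro h
      exact absurd (mem_univ _) h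

theorem mono (D D' : ℕ) (g : (X → Bool) → ℝ) (h : D ≤ D') (hg : Lo D g) : Lo D' g := by
  obtain ⟨c, h1, h2⟩ := hg
  exact ⟨c, fun U hU => (h1 U hU).trans h, h2⟩

theorem smul (D : ℕ) (r : ℝ) (g : (X → Bool) → ℝ) (hg : Lo D g) : Lo D fun b => r * g b := by
  obtain ⟨c, h1, h2⟩ := hg
  refine ⟨fun U => r * c U, fun U hU => h1 U (right_ne_zero_of_mul hU), fun b => ?_⟩
  change r * g b = _
  rw [h2 b, mul_sum]
  exact sum_congr rfl fun U _ => by ring

theorem add (D : ℕ) (g g' : (X → Bool) → ℝ) (hg : Lo D g) (hg' : Lo D g') :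
    Lo D fun b => g b + g' b := by
  obtain ⟨c, h1, h2⟩ := hg
  obtain ⟨c', h1', h2'⟩ := hg'
  refine ⟨fun U => c U + c' U, fun U hU => ?_, fun b => ?_⟩
  · by_contra h
    have e1 : c U = 0 := by
      by_contra h3
      exact h (h1 U h3)
    have e2 : c' U = 0 := by
      by_contra h3
      exact h (h1' U h3)
    apply hU
    change c U + c' U = 0
    rw [e1, e2, add_zero]
  · change g b + g' b = _
    rw [h2 b, h2' b, ← sum_add_distrib]
    exact sum_congr rfl fun U _ => by ring

theorem mul (D D' : ℕ) (g g' : (X → Bool) → ℝ) (hg : Lo D g) (hg' : Lo D' g') :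
    Lo (D + D') fun b => g b * g' b := by
  classical
  obtain ⟨c, h1, h2⟩ := hg
  obtain ⟨c', h1', h2'⟩ := hg'
  refine ⟨fun W => ∑ p : Finset X × Finset X, if p.1 ∪ p.2 = W then c p.1 * c' p.2 else 0,
    fun W hW => ?_, fun b => ?_⟩
  · obtain ⟨p, _, hp⟩ := Finset.exists_ne_zero_of_sum_ne_zero hW
    by_cases h : p.1 ∪ p.2 = W
    · rw [if_pos h] at hp
      rw [← h]
      exact (card_union_le _ _).trans
        (Nat.add_le_add (h1 _ (left_ne_zero_of_mul hp)) (h1' _ (right_ne_zero_of_mul hp)))
    · exact absurd (if_neg h) hp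
  · change g b * g' b = _
    rw [h2 b, h2' b, sum_mul_sum, ← Finset.sum_product', Finset.univ_product_univ]
    have hic : ∀ p : Finset X × Finset X, ic (∀ x ∈ p.1, b x = false) *
        ic (∀ x ∈ p.2, b x = false) = ic (∀ x ∈ p.1 ∪ p.2, b x = false) := by
      intro p
      by_cases e1 : ∀ x ∈ p.1, b x = false
      · by_cases e2 : ∀ x ∈ p.2, b x = false
        · rw [ic_true e1, ic_true e2, ic_true, mul_one]
          intro x hx
          rcases mem_union.1 hx with h | h
          · exact e1 x h
          · exact e2 x h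
        · have h3 : ¬ ∀ x ∈ p.1 ∪ p.2, b x = false :=
            fun h => e2 fun x hx => h x (mem_union_right _ hx)
          rw [ic_false e2, ic_false h3, mul_zero]
      · have h3 : ¬ ∀ x ∈ p.1 ∪ p.2, b x = false :=
          fun h => e1 fun x hx => h x (mem_union_left _ hx)
        rw [ic_false e1, ic_false h3, zero_mul]
    have hsw : ∀ W : Finset X, (∑ p : Finset X × Finset X,
        if p.1 ∪ p.2 = W then c p.1 * c' p.2 else 0) * ic (∀ x ∈ W, b x = false) =
        ∑ p : Finset X × Finset X,
          if p.1 ∪ p.2 = W then c p.1 * c' p.2 * ic (∀ x ∈ W, b x = false) else 0 := by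
      intro W
      rw [sum_mul]
      refine sum_congr rfl fun p _ => ?_
      rw [ite_mul, zero_mul]
    rw [sum_congr rfl fun W _ => hsw W, sum_comm]
    refine sum_congr rfl fun p _ => ?_
    rw [Finset.sum_ite_eq, if_pos (mem_univ _), ← hic p]
    ring

theorem sum (D : ℕ) (ι : Type) (s : Finset ι) (g : ι → (X → Bool) → ℝ)
    (h : ∀ i ∈ s, Lo D (g i)) : Lo D fun b => ∑ i ∈ s, g i b := by
  classical
  induction s using Finset.induction_on with
  | empty =>
    have h0 := const (X := X) D 0
    have e : (fun b : X → Bool => ∑ i ∈ (∅ : Finset ι), g i b) = fun _ => (0 : ℝ) := by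
      funext b
      exact sum_empty
    rw [e]
    exact h0
  | insert a s ha ih =>
    have e : (fun b : X → Bool => ∑ i ∈ insert a s, g i b) =
        fun b => g a b + ∑ i ∈ s, g i b := by
      funext b
      exact sum_insert ha
    rw [e]
    exact add D _ _ (h a (mem_insert_self a s))
      (ih fun i hi => h i (mem_insert_of_mem hi))

theorem prod (D : ℕ) (ι : Type) (s : Finset ι) (g : ι → (X → Bool) → ℝ)
    (h : ∀ i ∈ s, Lo D (g i)) : Lo (s.card * D) fun b => ∏ i ∈ s, g i b := by
  classical
  induction s using Finset.induction_on with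
  | empty =>
    have e : (fun b : X → Bool => ∏ i ∈ (∅ : Finset ι), g i b) = fun _ => (1 : ℝ) := by
      funext b
      exact prod_empty
    rw [e]
    exact const _ 1
  | insert a s ha ih =>
    have e : (fun b : X → Bool => ∏ i ∈ insert a s, g i b) =
        fun b => g a b * ∏ i ∈ s, g i b := by
      funext b
      exact prod_insert ha
    rw [e, card_insert_of_notMem ha, Nat.succ_mul, Nat.add_comm]
    exact mul D _ _ _ (h a (mem_insert_self a s))
      (ih fun i hi => h i (mem_insert_of_mem hi))

end

theorem ldc : T_LDC := by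
  intro X _
  exact ⟨const, mono, smul, add, sum, mul, prod⟩

end Pool.Agent.H12.PW.LDC
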