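import Pool.Agent.H70.PW.Targets

/-!
# PW, module MKV: an inequality of Markov
-/

set_option autoImplicit false

open Polynomial

namespace Pool.Agent.H12.PW.MKV

theorem one_le (D : ℕ) (P : ℝ[X]) (hP : P.natDegree ≤ D)
    (hb : ∀ x : ℝ, |x| ≤ 1 → |P.eval x| ≤ 1) : |P.derivative.eval 1| ≤ (D : ℝ) ^ 2 := by
  have hT : (derivative^[1] (Chebyshev.T ℝ D)).eval 1 = (D : ℝ) ^ 2 := by
    rw [Function.iterate_one, Chebyshev.T_derivative_eq_U, eval_mul, Chebyshev.U_eval_one]
    simp
    ring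
  have key : ∀ Q : ℝ[X], Q.natDegree ≤ D → (∀ x : ℝ, |x| ≤ 1 → |Q.eval x| ≤ 1) →
      Q.derivative.eval 1 ≤ (D : ℝ) ^ 2 := by
    intro Q hQ hQb
    have h := Chebyshev.eval_iterate_derivative_le_of_forall_abs_le_one (n := D) (P := Q) (k := 1)
      (x := 1) le_rfl (natDegree_le_iff_degree_le.1 hQ)
      (fun x hx => hQb x (abs_le.2 ⟨hx.1, hx.2⟩))
    rw [hT, Function.iterate_one] at h
    exact h
  rw [abs_le]
  constructor
  · have h := key (-P) (by rw [natDegree_neg]; exact hP) (fun x hx => by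
      rw [eval_neg, abs_neg]; exact hb x hx)
    rw [derivative_neg, eval_neg] at h
    linarith
  · exact key P hP hb

theorem half (D : ℕ) (p : ℝ[X]) (hp : p.natDegree ≤ D)
    (hb : ∀ x : ℝ, |x| ≤ 1 → |p.eval x| ≤ 1) (x : ℝ) (h0 : 0 ≤ x) (h1 : x ≤ 1) :
    |p.derivative.eval x| ≤ 2 * (D : ℝ) ^ 2 := by
  set q : ℝ[X] := C ((1 + x) / 2) * X + C ((x - 1) / 2) with hq
  have hqe : ∀ y : ℝ, q.eval y = (1 + x) / 2 * y + (x - 1) / 2 := by
    intro y
    simp [hq]
  have hqd : q.natDegree ≤ 1 := by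
    rw [hq]
    exact natDegree_linear_le
  have h := one_le D (p.comp q) (by
      refine (natDegree_comp_le).trans ?_
      calc p.natDegree * q.natDegree ≤ p.natDegree * 1 := Nat.mul_le_mul_left _ hqd
        _ ≤ D := by rw [mul_one]; exact hp) (by
      intro y hy
      rw [eval_comp]
      apply hb
      rw [hqe]
      rw [abs_le] at hy ⊢
      constructor
      · nlinarith
      · nlinarith)
  rw [derivative_comp, eval_mul, eval_comp] at h
  have e1 : q.eval 1 = x := by rw [hqe]; ring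
  have e2 : q.derivative.eval 1 = (1 + x) / 2 := by
    rw [hq]
    simp
  rw [e1, e2, abs_mul, abs_of_nonneg (by linarith : (0 : ℝ) ≤ (1 + x) / 2)] at h
  have h2 : 1 / 2 * |p.derivative.eval x| ≤ (1 + x) / 2 * |p.derivative.eval x| := by
    apply mul_le_mul_of_nonneg_right _ (abs_nonneg _)
    linarith
  linarith

theorem mkv0 (D : ℕ) (p : Polynomial ℝ) (hp : p.natDegree ≤ D)
    (hb : ∀ x : ℝ, |x| ≤ 1 → |p.eval x| ≤ 1) (x : ℝ) (hx : |x| ≤ 1) :
    |p.derivative.eval x| ≤ 2 * D ^ 2 := by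
  rw [abs_le] at hx
  rcases le_total 0 x with h0 | h0
  · exact half D p hp hb x h0 hx.2
  · have h := half D (p.comp (-X)) (by
      refine (natDegree_comp_le).trans ?_
      rw [natDegree_neg, natDegree_X, mul_one]
      exact hp) (by
      intro y hy
      rw [eval_comp]
      apply hb
      simpa using hy) (-x) (by linarith) (by linarith)
    rw [derivative_comp, eval_mul, eval_comp] at h
    simpa using h

theorem mkv : Pool.Agent.H70.PW.T_MKV := by
  intro D p hp hb x hx
  exact mkv0 D p hp hb x hx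

end Pool.Agent.H12.PW.MKV
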